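import Mathlib

set_option autoImplicit false

namespace Pool.Agent.Results.MP_e89dd6_co.NotUnimodal

section Defs

variable {P : Type} [PartialOrder P]

/-- `L` is a labeling: a bijection from `P` onto `{1, ..., n}`, `n = |P|`. -/
def IsLabeling (L : P → ℕ) : Prop :=
  Set.BijOn L Set.univ (Set.Icc 1 (Nat.card P))

/-- `L` is a linear extension (for a labeling `L`). -/
def IsLinExt (L : P → ℕ) : Prop := ∀ x y, x ≤ y → L x ≤ L y

/-- `y` is the `L`-successor of `x`. -/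
def IsSucc (L : P → ℕ) (x y : P) : Prop := x < y ∧ ∀ z, x < z → L y ≤ L z

/-- The members `v₁, ..., v_m` of the promotion chain of `L`. -/
inductive InChain (L : P → ℕ) : P → Prop
  | base {x : P} : L x = 1 → InChain L x
  | step {x y : P} : InChain L x → IsSucc L x y → InChain L y

open Classical in
/-- Extended promotion. -/
noncomputable def prom (L : P → ℕ) : P → ℕ := fun x =>
  if InChain L x then
    (if h : ∃ y, IsSucc L x y then L h.choose - 1 else Nat.card P)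
  else L x - 1

/-- `a_k(P)`: the number of labelings `L` such that `∂^k(L)` is a linear extension. -/
noncomputable def a (P : Type) [PartialOrder P] (k : ℕ) : ℕ :=
  Nat.card {L : P → ℕ // IsLabeling L ∧ IsLinExt (prom^[k] L)}

/-- `â_0 = a_0` and `â_k = a_k - a_{k-1}`. -/
noncomputable def hatA (P : Type) [PartialOrder P] : ℕ → ℤ
  | 0 => a P 0
  | k + 1 => (a P (k + 1) : ℤ) - a P k

end Defs

/-- The ground set of the example. -/
structure Q where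
  val : Fin 5
deriving DecidableEq

/-- The two strict relations `1 < 3` and `2 < 4`. -/
def ltQ (a b : Fin 5) : Bool := (a == 1 && b == 3) || (a == 2 && b == 4)

instance : PartialOrder Q where
  le a b := (a.val == b.val || ltQ a.val b.val) = true
  le_refl := by
    rintro ⟨a⟩
    revert a
    decide
  le_trans := by
    rintro ⟨a⟩ ⟨b⟩ ⟨c⟩
    revert a b c
    decide
  le_antisymm := by
    rintro ⟨a⟩ ⟨b⟩
    revert a b
    decide

instance : Fintype Q := Fintype.ofEquiv (Fin 5) ⟨Q.mk, Q.val, fun _ => rfl, fun _ => rfl⟩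

instance (a b : Q) : Decidable (a ≤ b) :=
  inferInstanceAs (Decidable ((a.val == b.val || ltQ a.val b.val) = true))

instance (a b : Q) : Decidable (a < b) := decidable_of_iff (a ≤ b ∧ ¬ b ≤ a) lt_iff_le_not_ge.symm

lemma card_Q : Nat.card Q = 5 := by
  rw [Nat.card_eq_fintype_card]
  rfl

/-- Tuples of labels. -/
abbrev T : Type := ℕ × ℕ × ℕ × ℕ × ℕ

/-- The tuple of values of a function. -/
def tup (L : Q → ℕ) : T := (L ⟨0⟩, L ⟨1⟩, L ⟨2⟩, L ⟨3⟩, L ⟨4⟩)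

/-- Promotion on tuples. -/
def step : T → T := fun (l0, l1, l2, l3, l4) =>
  if l0 = 1 then (5, l1 - 1, l2 - 1, l3 - 1, l4 - 1)
  else if l1 = 1 then (l0 - 1, l3 - 1, l2 - 1, 5, l4 - 1)
  else if l2 = 1 then (l0 - 1, l1 - 1, l4 - 1, l3 - 1, 5)
  else if l3 = 1 then (l0 - 1, l1 - 1, l2 - 1, 5, l4 - 1)
  else (l0 - 1, l1 - 1, l2 - 1, l3 - 1, 5)

/-- Labelings as tuples. -/
def lab : T → Bool := fun (l0, l1, l2, l3, l4) =>
  decide (1 ≤ l0 ∧ l0 ≤ 5) && decide (1 ≤ l1 ∧ l1 ≤ 5) && decide (1 ≤ l2 ∧ l2 ≤ 5) &&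
  decide (1 ≤ l3 ∧ l3 ≤ 5) && decide (1 ≤ l4 ∧ l4 ≤ 5) &&
  (l0 != l1) && (l0 != l2) && (l0 != l3) && (l0 != l4) && (l1 != l2) && (l1 != l3) &&
  (l1 != l4) && (l2 != l3) && (l2 != l4) && (l3 != l4)

/-- Linear extensions as tuples. -/
def lin : T → Bool := fun (_, l1, l2, l3, l4) => decide (l1 ≤ l3) && decide (l2 ≤ l4)

/-- The test for `a_k`. -/
def test (k : ℕ) (t : T) : Bool := lab t && lin (step^[k] t)

/-- Tuples with small entries. -/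
abbrev S : Type := Fin 5 × Fin 5 × Fin 5 × Fin 5 × Fin 5

/-- The corresponding tuple of labels. -/
def coe (s : S) : T := (s.1 + 1, s.2.1 + 1, s.2.2.1 + 1, s.2.2.2.1 + 1, s.2.2.2.2 + 1)

lemma lab_step0 : ∀ x y : Fin 5, ∀ s : Fin 5 × Fin 5 × Fin 5,
    (!(lab (coe (x, y, s))) || lab (step (coe (x, y, s)))) = true := by
  decide +kernel

lemma lab_step (s : S) (h : lab (coe s) = true) : lab (step (coe s)) = true := by
  obtain ⟨x, y, s⟩ := s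
  have := lab_step0 x y s
  rw [h] at this
  simpa using this

lemma count0 : (Finset.univ.filter fun s : S => test 0 (coe s) = true).card = 30 := by
  decide +kernel

lemma count1 : (Finset.univ.filter fun s : S => test 1 (coe s) = true).card = 54 := by
  decide +kernel

lemma count2 : (Finset.univ.filter fun s : S => test 2 (coe s) = true).card = 84 := by
  decide +kernel

lemma lab_iff (L : Q → ℕ) : IsLabeling L ↔ lab (tup L) = true := by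
  unfold IsLabeling
  rw [card_Q]
  constructor
  · rintro ⟨hm, hi, -⟩
    have hm' : ∀ x, 1 ≤ L x ∧ L x ≤ 5 := fun x => hm (Set.mem_univ x)
    have hi' : ∀ x y, x ≠ y → L x ≠ L y := fun x y h h' =>
      h (hi (Set.mem_univ x) (Set.mem_univ y) h')
    have e := hi'
    simp only [lab, tup, Bool.and_eq_true, decide_eq_true_eq, bne_iff_ne]
    refine ⟨⟨⟨⟨⟨⟨⟨⟨⟨⟨⟨⟨⟨⟨hm' _, hm' _⟩, hm' _⟩, hm' _⟩, hm' _⟩, ?_⟩, ?_⟩, ?_⟩, ?_⟩, ?_⟩, ?_⟩, ?_⟩,
      ?_⟩, ?_⟩, ?_⟩ <;> exact hi' _ _ (by decide)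
  · intro h
    simp only [lab, tup, Bool.and_eq_true, decide_eq_true_eq, bne_iff_ne] at h
    obtain ⟨⟨⟨⟨⟨⟨⟨⟨⟨⟨⟨⟨⟨⟨b0, b1⟩, b2⟩, b3⟩, b4⟩, n01⟩, n02⟩, n03⟩, n04⟩, n12⟩, n13⟩, n14⟩,
      n23⟩, n24⟩, n34⟩ := h
    have hm : Set.MapsTo L Set.univ (Set.Icc 1 5) := by
      rintro ⟨x⟩ -
      fin_cases x <;> assumption
    have hi : Set.InjOn L Set.univ := by
      rintro ⟨x⟩ - ⟨y⟩ - hxy
      fin_cases x <;> fin_cases y <;> first | rfl | (exfalso; simp at hxy; omega)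
    refine ⟨hm, hi, ?_⟩
    have h1 : (Set.Icc 1 5 : Set ℕ).ncard = 5 := by
      rw [← Finset.coe_Icc, Set.ncard_coe_finset]
      rfl
    have h2 : (L '' Set.univ).ncard = 5 := by
      rw [Set.InjOn.ncard_image hi, Set.ncard_univ, card_Q]
    have h3 := Set.eq_of_subset_of_ncard_le (Set.mapsTo_iff_image_subset.mp hm)
      (by rw [h1, h2]) (Set.finite_Icc 1 5)
    exact h3.ge

lemma lt_iff (x y : Q) : x < y ↔ (x = ⟨1⟩ ∧ y = ⟨3⟩) ∨ (x = ⟨2⟩ ∧ y = ⟨4⟩) := by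
  revert x y
  decide

lemma succ_iff (L : Q → ℕ) (x y : Q) :
    IsSucc L x y ↔ (x = ⟨1⟩ ∧ y = ⟨3⟩) ∨ (x = ⟨2⟩ ∧ y = ⟨4⟩) := by
  unfold IsSucc
  rw [lt_iff]
  constructor
  · exact fun h => h.1
  · intro h
    refine ⟨h, fun z hz => ?_⟩
    rw [lt_iff] at hz
    rcases h with ⟨rfl, rfl⟩ | ⟨rfl, rfl⟩
    · rcases hz with ⟨-, rfl⟩ | ⟨h, -⟩
      · exact le_rfl
      · exact absurd h (by decide)
    · rcases hz with ⟨h, -⟩ | ⟨-, rfl⟩
      · exact absurd h (by decide)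
      · exact le_rfl

lemma chain_iff (L : Q → ℕ) (x : Q) :
    InChain L x ↔ L x = 1 ∨ (x = ⟨3⟩ ∧ L ⟨1⟩ = 1) ∨ (x = ⟨4⟩ ∧ L ⟨2⟩ = 1) := by
  constructor
  · intro h
    induction h with
    | base h => exact Or.inl h
    | @step x y hx hs ih =>
      rw [succ_iff] at hs
      rcases hs with ⟨rfl, rfl⟩ | ⟨rfl, rfl⟩
      · rcases ih with h | ⟨h, -⟩ | ⟨h, -⟩
        · exact Or.inr (Or.inl ⟨rfl, h⟩)
        · exact absurd h (by decide)
        · exact absurd h (by decide)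
      · rcases ih with h | ⟨h, -⟩ | ⟨h, -⟩
        · exact Or.inr (Or.inr ⟨rfl, h⟩)
        · exact absurd h (by decide)
        · exact absurd h (by decide)
  · rintro (h | ⟨rfl, h⟩ | ⟨rfl, h⟩)
    · exact InChain.base h
    · exact InChain.step (InChain.base h) ((succ_iff L _ _).2 (Or.inl ⟨rfl, rfl⟩))
    · exact InChain.step (InChain.base h) ((succ_iff L _ _).2 (Or.inr ⟨rfl, rfl⟩))

lemma prom_not (L : Q → ℕ) (x : Q) (h : ¬ InChain L x) : prom L x = L x - 1 := by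
  unfold prom
  rw [if_neg h]

lemma prom_max (L : Q → ℕ) (x : Q) (h : InChain L x) (h' : ¬ ∃ y, IsSucc L x y) :
    prom L x = 5 := by
  unfold prom
  rw [if_pos h, dif_neg h', card_Q]

lemma prom_succ (L : Q → ℕ) (x y : Q) (h : InChain L x) (h' : IsSucc L x y) :
    prom L x = L y - 1 := by
  have hex : ∃ y, IsSucc L x y := ⟨y, h'⟩
  unfold prom
  rw [if_pos h, dif_pos hex]
  have := hex.choose_spec
  rw [succ_iff] at this h'
  have e : hex.choose = y := by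
    rcases h' with ⟨rfl, rfl⟩ | ⟨rfl, rfl⟩
    · rcases this with ⟨-, h⟩ | ⟨h, -⟩
      · exact h
      · exact absurd h (by decide)
    · rcases this with ⟨h, -⟩ | ⟨-, h⟩
      · exact absurd h (by decide)
      · exact h
  rw [e]

lemma tup_prom (L : Q → ℕ) (h : lab (tup L) = true) : tup (prom L) = step (tup L) := by
  simp only [lab, tup, Bool.and_eq_true, decide_eq_true_eq, bne_iff_ne] at h
  obtain ⟨⟨⟨⟨⟨⟨⟨⟨⟨⟨⟨⟨⟨⟨b0, b1⟩, b2⟩, b3⟩, b4⟩, n01⟩, n02⟩, n03⟩, n04⟩, n12⟩, n13⟩, n14⟩,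
    n23⟩, n24⟩, n34⟩ := h
  have N0 : ¬ ∃ y, IsSucc L ⟨0⟩ y := by
    rintro ⟨y, h⟩
    rw [succ_iff] at h
    rcases h with ⟨h, -⟩ | ⟨h, -⟩ <;> exact absurd h (by decide)
  have N3 : ¬ ∃ y, IsSucc L ⟨3⟩ y := by
    rintro ⟨y, h⟩
    rw [succ_iff] at h
    rcases h with ⟨h, -⟩ | ⟨h, -⟩ <;> exact absurd h (by decide)
  have N4 : ¬ ∃ y, IsSucc L ⟨4⟩ y := by
    rintro ⟨y, h⟩
    rw [succ_iff] at h
    rcases h with ⟨h, -⟩ | ⟨h, -⟩ <;> exact absurd h (by decide)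
  have S1 : IsSucc L ⟨1⟩ ⟨3⟩ := (succ_iff L _ _).2 (Or.inl ⟨rfl, rfl⟩)
  have S2 : IsSucc L ⟨2⟩ ⟨4⟩ := (succ_iff L _ _).2 (Or.inr ⟨rfl, rfl⟩)
  have C0 : InChain L ⟨0⟩ ↔ L ⟨0⟩ = 1 := by
    rw [chain_iff]; simp
  have C1 : InChain L ⟨1⟩ ↔ L ⟨1⟩ = 1 := by
    rw [chain_iff]; simp
  have C2 : InChain L ⟨2⟩ ↔ L ⟨2⟩ = 1 := by
    rw [chain_iff]; simp
  have C3 : InChain L ⟨3⟩ ↔ L ⟨3⟩ = 1 ∨ L ⟨1⟩ = 1 := by
    rw [chain_iff]; simp
  have C4 : InChain L ⟨4⟩ ↔ L ⟨4⟩ = 1 ∨ L ⟨2⟩ = 1 := by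
    rw [chain_iff]; simp
  have P0 : prom L ⟨0⟩ = if L ⟨0⟩ = 1 then 5 else L ⟨0⟩ - 1 := by
    split_ifs with h
    · exact prom_max L _ (C0.2 h) N0
    · exact prom_not L _ (fun h' => h (C0.1 h'))
  have P1 : prom L ⟨1⟩ = if L ⟨1⟩ = 1 then L ⟨3⟩ - 1 else L ⟨1⟩ - 1 := by
    split_ifs with h
    · exact prom_succ L _ _ (C1.2 h) S1
    · exact prom_not L _ (fun h' => h (C1.1 h'))
  have P2 : prom L ⟨2⟩ = if L ⟨2⟩ = 1 then L ⟨4⟩ - 1 else L ⟨2⟩ - 1 := by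
    split_ifs with h
    · exact prom_succ L _ _ (C2.2 h) S2
    · exact prom_not L _ (fun h' => h (C2.1 h'))
  have P3 : prom L ⟨3⟩ = if L ⟨3⟩ = 1 ∨ L ⟨1⟩ = 1 then 5 else L ⟨3⟩ - 1 := by
    split_ifs with h
    · exact prom_max L _ (C3.2 h) N3
    · exact prom_not L _ (fun h' => h (C3.1 h'))
  have P4 : prom L ⟨4⟩ = if L ⟨4⟩ = 1 ∨ L ⟨2⟩ = 1 then 5 else L ⟨4⟩ - 1 := by
    split_ifs with h
    · exact prom_max L _ (C4.2 h) N4
    · exact prom_not L _ (fun h' => h (C4.1 h'))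
  have one : L ⟨0⟩ = 1 ∨ L ⟨1⟩ = 1 ∨ L ⟨2⟩ = 1 ∨ L ⟨3⟩ = 1 ∨ L ⟨4⟩ = 1 := by omega
  simp only [tup, step, P0, P1, P2, P3, P4]
  rcases one with h | h | h | h | h
  · have a1 : L ⟨1⟩ ≠ 1 := by omega
    have a2 : L ⟨2⟩ ≠ 1 := by omega
    have a3 : L ⟨3⟩ ≠ 1 := by omega
    have a4 : L ⟨4⟩ ≠ 1 := by omega
    simp [h, a1, a2, a3, a4]
  · have a1 : L ⟨0⟩ ≠ 1 := by omega
    have a2 : L ⟨2⟩ ≠ 1 := by omega
    have a3 : L ⟨3⟩ ≠ 1 := by omega
    have a4 : L ⟨4⟩ ≠ 1 := by omega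
    simp [h, a1, a2, a3, a4]
  · have a1 : L ⟨0⟩ ≠ 1 := by omega
    have a2 : L ⟨1⟩ ≠ 1 := by omega
    have a3 : L ⟨3⟩ ≠ 1 := by omega
    have a4 : L ⟨4⟩ ≠ 1 := by omega
    simp [h, a1, a2, a3, a4]
  · have a1 : L ⟨0⟩ ≠ 1 := by omega
    have a2 : L ⟨1⟩ ≠ 1 := by omega
    have a3 : L ⟨2⟩ ≠ 1 := by omega
    have a4 : L ⟨4⟩ ≠ 1 := by omega
    simp [h, a1, a2, a3, a4]
  · have a1 : L ⟨0⟩ ≠ 1 := by omega
    have a2 : L ⟨1⟩ ≠ 1 := by omega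
    have a3 : L ⟨2⟩ ≠ 1 := by omega
    have a4 : L ⟨3⟩ ≠ 1 := by omega
    simp [h, a1, a2, a3, a4]

/-- Every labeling is given by a tuple of `S`. -/
lemma exists_coe (L : Q → ℕ) (h : lab (tup L) = true) : ∃ s : S, tup L = coe s := by
  simp only [lab, tup, Bool.and_eq_true, decide_eq_true_eq, bne_iff_ne] at h
  obtain ⟨⟨⟨⟨⟨⟨⟨⟨⟨⟨⟨⟨⟨⟨b0, b1⟩, b2⟩, b3⟩, b4⟩, n01⟩, n02⟩, n03⟩, n04⟩, n12⟩, n13⟩, n14⟩,
    n23⟩, n24⟩, n34⟩ := h
  refine ⟨(⟨L ⟨0⟩ - 1, by omega⟩, ⟨L ⟨1⟩ - 1, by omega⟩, ⟨L ⟨2⟩ - 1, by omega⟩,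
    ⟨L ⟨3⟩ - 1, by omega⟩, ⟨L ⟨4⟩ - 1, by omega⟩), ?_⟩
  simp only [tup, coe, Prod.mk.injEq]
  refine ⟨?_, ?_, ?_, ?_, ?_⟩ <;> omega

lemma lab_step' (L : Q → ℕ) (h : lab (tup L) = true) : lab (tup (prom L)) = true := by
  rw [tup_prom L h]
  obtain ⟨s, hs⟩ := exists_coe L h
  rw [hs] at h ⊢
  exact lab_step s h

lemma iter (k : ℕ) : ∀ L : Q → ℕ, lab (tup L) = true →
    lab (tup (prom^[k] L)) = true ∧ tup (prom^[k] L) = step^[k] (tup L) := by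
  induction k with
  | zero => intro L h; exact ⟨h, rfl⟩
  | succ k ih =>
    intro L h
    rw [Function.iterate_succ_apply, Function.iterate_succ_apply, ← tup_prom L h]
    exact ih _ (lab_step' L h)

lemma lin_iff (L : Q → ℕ) : IsLinExt L ↔ lin (tup L) = true := by
  unfold IsLinExt
  simp only [lin, tup, Bool.and_eq_true, decide_eq_true_eq]
  constructor
  · intro h
    exact ⟨h _ _ (by decide), h _ _ (by decide)⟩
  · rintro ⟨h1, h2⟩ x y hxy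
    rcases eq_or_lt_of_le hxy with rfl | h
    · exact le_rfl
    · rw [lt_iff] at h
      rcases h with ⟨rfl, rfl⟩ | ⟨rfl, rfl⟩
      · exact h1
      · exact h2

lemma mem_iff (k : ℕ) (L : Q → ℕ) :
    (IsLabeling L ∧ IsLinExt (prom^[k] L)) ↔ test k (tup L) = true := by
  unfold test
  rw [Bool.and_eq_true, lab_iff, lin_iff]
  constructor
  · rintro ⟨h1, h2⟩
    rw [(iter k L h1).2] at h2
    exact ⟨h1, h2⟩
  · rintro ⟨h1, h2⟩
    rw [← (iter k L h1).2] at h2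
    exact ⟨h1, h2⟩

/-- The function with a given tuple of values. -/
def fn (t : T) : Q → ℕ := fun x => ![t.1, t.2.1, t.2.2.1, t.2.2.2.1, t.2.2.2.2] x.val

lemma tup_fn (t : T) : tup (fn t) = t := rfl

lemma tup_inj (L M : Q → ℕ) (h : tup L = tup M) : L = M := by
  simp only [tup, Prod.mk.injEq] at h
  obtain ⟨h0, h1, h2, h3, h4⟩ := h
  funext ⟨x⟩
  fin_cases x <;> assumption

lemma coe_inj (s t : S) (h : coe s = coe t) : s = t := by
  obtain ⟨s0, s1, s2, s3, s4⟩ := s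
  obtain ⟨t0, t1, t2, t3, t4⟩ := t
  simp only [coe, Prod.mk.injEq] at h
  obtain ⟨h0, h1, h2, h3, h4⟩ := h
  simp only [Prod.mk.injEq]
  refine ⟨?_, ?_, ?_, ?_, ?_⟩ <;> apply Fin.ext <;> omega

lemma a_eq (k : ℕ) : a Q k = (Finset.univ.filter fun s : S => test k (coe s) = true).card := by
  unfold a
  rw [← Fintype.card_subtype, ← Nat.card_eq_fintype_card]
  symm
  refine Nat.card_eq_of_bijective
    (fun s : {s : S // test k (coe s) = true} =>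
      (⟨fn (coe s.1), (mem_iff k _).2 (by rw [tup_fn]; exact s.2)⟩ :
        {L : Q → ℕ // IsLabeling L ∧ IsLinExt (prom^[k] L)})) ⟨?_, ?_⟩
  · rintro ⟨s, hs⟩ ⟨t, ht⟩ h
    have h' := congrArg (fun z => tup z.1) h
    simp only [tup_fn] at h'
    exact Subtype.ext (coe_inj _ _ h')
  · rintro ⟨L, hL⟩
    obtain ⟨s, hs⟩ := exists_coe L ((lab_iff L).1 hL.1)
    refine ⟨⟨s, ?_⟩, ?_⟩
    · rw [← hs]
      exact (mem_iff k L).1 hL
    · apply Subtype.ext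
      apply tup_inj
      simp only [tup_fn]
      exact hs.symm

/-- **Extended promotion has a non-unimodal sorting profile.** There are a finite poset `P` with
`n` elements and indices `0 ≤ i < j < l ≤ n - 1` such that `â_i(P) > â_j(P) < â_l(P)`. -/
theorem result : ∃ (P : Type) (_ : PartialOrder P) (_ : Finite P) (i j l : ℕ),
    i < j ∧ j < l ∧ l ≤ Nat.card P - 1 ∧ hatA P j < hatA P i ∧ hatA P j < hatA P l := by
  refine ⟨Q, inferInstance, inferInstance, 0, 1, 2, by omega, by omega, ?_, ?_, ?_⟩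
  · rw [card_Q]; omega
  · simp only [hatA, a_eq]
    rw [show (0 + 1 : ℕ) = 1 from rfl, count0, count1]
    norm_num
  · simp only [hatA, a_eq]
    rw [show (0 + 1 : ℕ) = 1 from rfl, show (1 + 1 : ℕ) = 2 from rfl, count0, count1, count2]
    norm_num

end Pool.Agent.Results.MP_e89dd6_co.NotUnimodal
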